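import Mathlib

set_option autoImplicit false

namespace Pool.Agent.H.MP_4e7634_nt

noncomputable def bin (n : ℕ) : ℕ :=
  Nat.card {p : n.Partition // ∀ i ∈ p.parts, ∃ k : ℕ, i = 2 ^ k}

def A (n : ℕ) : Set (Multiset ℕ) := {s | s.sum = n ∧ ∀ i ∈ s, ∃ k : ℕ, i = 2 ^ k}

lemma A_eq (n : ℕ) : A n = Nat.Partition.parts ''
    {p : n.Partition | ∀ i ∈ p.parts, ∃ k : ℕ, i = 2 ^ k} := by
  ext s
  constructor
  · rintro ⟨h1, h2⟩
    refine ⟨⟨s, fun {i} hi => ?_, h1⟩, h2, rfl⟩
    obtain ⟨k, rfl⟩ := h2 i hi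
    positivity
  · rintro ⟨p, hp, rfl⟩
    exact ⟨p.parts_sum, hp⟩

lemma A_fin (n : ℕ) : (A n).Finite := A_eq n ▸ (Set.toFinite _).image _

lemma bin_eq (n : ℕ) : bin n = (A n).ncard := by
  rw [A_eq, Set.ncard_image_of_injective _ fun _ _ h => Nat.Partition.ext h]
  rfl

lemma A_succ (n : ℕ) : A (n + 1) = Multiset.cons 1 '' A n ∪
    Multiset.map (2 * ·) '' {t | t ∈ A ((n + 1) / 2) ∧ 2 ∣ n + 1} := by
  ext s
  constructor
  · rintro ⟨h1, h2⟩
    by_cases h : 1 ∈ s
    · obtain ⟨t, rfl⟩ := Multiset.exists_cons_of_mem h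
      rw [Multiset.sum_cons] at h1
      exact .inl ⟨t, ⟨by omega, fun i hi => h2 i (Multiset.mem_cons_of_mem hi)⟩, rfl⟩
    · have h3 : ∀ i ∈ s, ∃ k : ℕ, i = 2 * 2 ^ k := fun i hi => by
        obtain ⟨_ | k, rfl⟩ := h2 i hi
        · exact absurd hi h
        · exact ⟨k, pow_succ' 2 k⟩
      have h4 : Multiset.map (2 * ·) (s.map (· / 2)) = s := by
        rw [Multiset.map_map]
        refine (Multiset.map_congr rfl fun i hi => ?_).trans (Multiset.map_id s)
        obtain ⟨k, rfl⟩ := h3 i hi
        simp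
      have h5 : 2 * (s.map (· / 2)).sum = n + 1 := by
        rw [← h1, ← Multiset.sum_map_mul_left]
        exact congrArg _ (by simpa using h4)
      refine .inr ⟨_, ⟨⟨by omega, fun i hi => ?_⟩, by omega⟩, h4⟩
      obtain ⟨j, hj, rfl⟩ := Multiset.mem_map.mp hi
      obtain ⟨k, rfl⟩ := h3 j hj
      exact ⟨k, by simp⟩
  · rintro (⟨t, ⟨h1, h2⟩, rfl⟩ | ⟨t, ⟨⟨h1, h2⟩, h3⟩, rfl⟩)
    · refine ⟨by rw [Multiset.sum_cons]; omega, fun i hi => ?_⟩
      rcases Multiset.mem_cons.mp hi with rfl | hi
      · exact ⟨0, rfl⟩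
      · exact h2 i hi
    · refine ⟨?_, fun i hi => ?_⟩
      · have := Multiset.sum_map_mul_left (s := t) (a := 2) (f := id)
        simp only [id, Multiset.map_id'] at this
        rw [this]
        omega
      · obtain ⟨j, hj, rfl⟩ := Multiset.mem_map.mp hi
        obtain ⟨k, rfl⟩ := h2 j hj
        exact ⟨k + 1, (pow_succ' 2 k).symm⟩

lemma bin_succ (n : ℕ) : bin (n + 1) = bin n + if 2 ∣ n + 1 then bin ((n + 1) / 2) else 0 := by
  rw [bin_eq, A_succ, Set.ncard_union_eq _ ((A_fin n).image _)
    (((A_fin _).subset fun t ht => ht.1).image _), Set.ncard_image_of_injective _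
    fun _ _ h => (Multiset.cons_inj_right 1).mp h, Set.ncard_image_of_injective _
    (Multiset.map_injective (mul_right_injective₀ two_ne_zero)), bin_eq, bin_eq]
  · split_ifs with h <;> simp [h]
  · rw [Set.disjoint_left]
    rintro _ ⟨t, -, rfl⟩ ⟨s, -, hs⟩
    have : 1 ∈ Multiset.map (2 * ·) s := hs ▸ Multiset.mem_cons_self 1 t
    obtain ⟨j, -, hj⟩ := Multiset.mem_map.mp this
    omega

lemma h0 : bin 0 = 1 := by
  rw [bin, Nat.card_eq_one_iff_unique]
  exact ⟨inferInstance, ⟨default, by simp⟩⟩

lemma h1 : bin 1 = 1 := by simp [bin_succ 0, h0]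

lemma bin_two (n : ℕ) : bin (n + 2) = bin n + bin (n / 2 + 1) := by
  rw [bin_succ (n + 1), bin_succ n]
  split_ifs with h1 h2 h2
  · omega
  · rw [show (n + 1) / 2 = n / 2 + 1 by omega, add_zero]
  · rw [show (n + 1 + 1) / 2 = n / 2 + 1 by omega, add_zero]
  · omega

lemma bin_mono : Monotone bin := monotone_nat_of_le_succ fun n => by
  rw [bin_succ]
  omega

lemma vals : bin 8 = 10 ∧ bin 30 = 166 ∧ bin 31 = 166 := by
  have h2 : bin 2 = 2 := by
    have := bin_two 0
    rw [show 0 / 2 + 1 = 1 from rfl] at this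
    simpa only [h0, h1] using this
  have h3 : bin 3 = 2 := by
    have := bin_two 1
    rw [show 1 / 2 + 1 = 1 from rfl] at this
    simpa only [h1, h1] using this
  have h4 : bin 4 = 4 := by
    have := bin_two 2
    rw [show 2 / 2 + 1 = 2 from rfl] at this
    simpa only [h2, h2] using this
  have h5 : bin 5 = 4 := by
    have := bin_two 3
    rw [show 3 / 2 + 1 = 2 from rfl] at this
    simpa only [h3, h2] using this
  have h6 : bin 6 = 6 := by
    have := bin_two 4
    rw [show 4 / 2 + 1 = 3 from rfl] at this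
    simpa only [h4, h3] using this
  have h7 : bin 7 = 6 := by
    have := bin_two 5
    rw [show 5 / 2 + 1 = 3 from rfl] at this
    simpa only [h5, h3] using this
  have h8 : bin 8 = 10 := by
    have := bin_two 6
    rw [show 6 / 2 + 1 = 4 from rfl] at this
    simpa only [h6, h4] using this
  have h9 : bin 9 = 10 := by
    have := bin_two 7
    rw [show 7 / 2 + 1 = 4 from rfl] at this
    simpa only [h7, h4] using this
  have h10 : bin 10 = 14 := by
    have := bin_two 8
    rw [show 8 / 2 + 1 = 5 from rfl] at this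
    simpa only [h8, h5] using this
  have h11 : bin 11 = 14 := by
    have := bin_two 9
    rw [show 9 / 2 + 1 = 5 from rfl] at this
    simpa only [h9, h5] using this
  have h12 : bin 12 = 20 := by
    have := bin_two 10
    rw [show 10 / 2 + 1 = 6 from rfl] at this
    simpa only [h10, h6] using this
  have h13 : bin 13 = 20 := by
    have := bin_two 11
    rw [show 11 / 2 + 1 = 6 from rfl] at this
    simpa only [h11, h6] using this
  have h14 : bin 14 = 26 := by
    have := bin_two 12
    rw [show 12 / 2 + 1 = 7 from rfl] at this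
    simpa only [h12, h7] using this
  have h15 : bin 15 = 26 := by
    have := bin_two 13
    rw [show 13 / 2 + 1 = 7 from rfl] at this
    simpa only [h13, h7] using this
  have h16 : bin 16 = 36 := by
    have := bin_two 14
    rw [show 14 / 2 + 1 = 8 from rfl] at this
    simpa only [h14, h8] using this
  have h17 : bin 17 = 36 := by
    have := bin_two 15
    rw [show 15 / 2 + 1 = 8 from rfl] at this
    simpa only [h15, h8] using this
  have h18 : bin 18 = 46 := by
    have := bin_two 16
    rw [show 16 / 2 + 1 = 9 from rfl] at this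
    simpa only [h16, h9] using this
  have h19 : bin 19 = 46 := by
    have := bin_two 17
    rw [show 17 / 2 + 1 = 9 from rfl] at this
    simpa only [h17, h9] using this
  have h20 : bin 20 = 60 := by
    have := bin_two 18
    rw [show 18 / 2 + 1 = 10 from rfl] at this
    simpa only [h18, h10] using this
  have h21 : bin 21 = 60 := by
    have := bin_two 19
    rw [show 19 / 2 + 1 = 10 from rfl] at this
    simpa only [h19, h10] using this
  have h22 : bin 22 = 74 := by
    have := bin_two 20
    rw [show 20 / 2 + 1 = 11 from rfl] at this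
    simpa only [h20, h11] using this
  have h23 : bin 23 = 74 := by
    have := bin_two 21
    rw [show 21 / 2 + 1 = 11 from rfl] at this
    simpa only [h21, h11] using this
  have h24 : bin 24 = 94 := by
    have := bin_two 22
    rw [show 22 / 2 + 1 = 12 from rfl] at this
    simpa only [h22, h12] using this
  have h25 : bin 25 = 94 := by
    have := bin_two 23
    rw [show 23 / 2 + 1 = 12 from rfl] at this
    simpa only [h23, h12] using this
  have h26 : bin 26 = 114 := by
    have := bin_two 24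
    rw [show 24 / 2 + 1 = 13 from rfl] at this
    simpa only [h24, h13] using this
  have h27 : bin 27 = 114 := by
    have := bin_two 25
    rw [show 25 / 2 + 1 = 13 from rfl] at this
    simpa only [h25, h13] using this
  have h28 : bin 28 = 140 := by
    have := bin_two 26
    rw [show 26 / 2 + 1 = 14 from rfl] at this
    simpa only [h26, h14] using this
  have h29 : bin 29 = 140 := by
    have := bin_two 27
    rw [show 27 / 2 + 1 = 14 from rfl] at this
    simpa only [h27, h14] using this
  have h30 : bin 30 = 166 := by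
    have := bin_two 28
    rw [show 28 / 2 + 1 = 15 from rfl] at this
    simpa only [h28, h15] using this
  have h31 : bin 31 = 166 := by
    have := bin_two 29
    rw [show 29 / 2 + 1 = 15 from rfl] at this
    simpa only [h29, h15] using this
  exact ⟨h8, h30, h31⟩

lemma bin_big (n : ℕ) : 5 * (n + 30) + 4 < bin (n + 30) := by
  induction n using Nat.twoStepInduction with
  | zero => simp [vals.2.1]
  | one => simp [vals.2.2]
  | more n h0 _ =>
    have := bin_mono (show 8 ≤ (n + 30) / 2 + 1 by omega)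
    rw [vals.1] at this
    rw [show n + 2 + 30 = n + 30 + 2 by ring, bin_two]
    omega

lemma fib_big (n : ℕ) : 5 * (n + 30) + 1 < Nat.fib (n + 30 + 1) := by
  induction n with
  | zero => decide +kernel
  | succ n ih =>
    have := Nat.le_fib_self (show 5 ≤ n + 30 by omega)
    rw [show n + 1 + 30 + 1 = n + 30 + 2 by ring, Nat.fib_add_two]
    omega

noncomputable def w (n : ℕ) : ℕ :=
  if n % 5 = 0 then Nat.fib (n / 5 + 1) else if n % 5 = 1 then 3
  else if n % 5 = 2 then max 1 (5 * ((n / 5 + 1) / 2)) else if n % 5 = 3 then bin (n / 5) else 5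

def ext (c : ℕ) (w : ℕ → ℕ) (m : ℤ) : ℕ := if m < 0 then c else w m.toNat

lemma ext_eq (m : ℤ) (n : ℕ) (h : m = n) : ext 0 w m = w n := by
  simp [ext, h]

lemma ext_neg (m : ℤ) (h : m < 0) : ext 0 w m = 0 := if_pos h

lemma w0 (n N : ℕ) (h : n = 5 * N) : w n = Nat.fib (N + 1) := by
  rw [w, if_pos (by omega), show n / 5 = N by omega]

lemma w1 (n N : ℕ) (h : n = 5 * N + 1) : w n = 3 := by
  rw [w, if_neg (by omega), if_pos (by omega)]

lemma w2 (n N : ℕ) (h : n = 5 * N + 2) (h0 : 0 < N) : w n = 5 * ((N + 1) / 2) := by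
  rw [w, if_neg (by omega), if_neg (by omega), if_pos (by omega), show n / 5 = N by omega]
  omega

lemma w3 (n N : ℕ) (h : n = 5 * N + 3) : w n = bin N := by
  rw [w, if_neg (by omega), if_neg (by omega), if_neg (by omega), if_pos (by omega),
    show n / 5 = N by omega]

lemma w4 (n N : ℕ) (h : n = 5 * N + 4) : w n = 5 := by
  rw [w, if_neg (by omega), if_neg (by omega), if_neg (by omega), if_neg (by omega)]

lemma w_pos (n : ℕ) : 0 < w n := by
  have := bin_mono (Nat.zero_le (n / 5))
  rw [h0] at this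
  unfold w
  split_ifs <;> first | omega | simp

lemma w_rec (n : ℕ) (hn : 150 ≤ n) :
    w n = ext 0 w (n - ext 0 w (n - (1 : ℕ))) + ext 0 w (n - (10 : ℕ)) := by
  obtain ⟨N, hN⟩ : ∃ N, n / 5 = N + 30 := ⟨n / 5 - 30, by omega⟩
  rw [ext_eq (n - (1 : ℕ)) (n - 1) (by omega), ext_eq (n - (10 : ℕ)) (n - 10) (by omega)]
  obtain h | h | h | h | h : n % 5 = 0 ∨ n % 5 = 1 ∨ n % 5 = 2 ∨ n % 5 = 3 ∨ n % 5 = 4 := by omega
  · rw [w4 (n - 1) (N + 29) (by omega), ext_eq (_ - _) (n - 5) ?_, w0 n (N + 30) (by omega),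
      w0 _ (N + 29) (by omega), w0 _ (N + 28) (by omega), Nat.fib_add_two, add_comm]
    omega
  · have := fib_big N
    rw [w0 (n - 1) (N + 30) (by omega), ext_neg _ ?_, w1 n (N + 30) (by omega),
      w1 _ (N + 28) (by omega)]
    omega
  · rw [w1 (n - 1) (N + 30) (by omega), ext_eq _ (n - 3) ?_, w2 n (N + 30) (by omega)
      (by omega), w4 _ (N + 29) (by omega), w2 _ (N + 28) (by omega) (by omega)] <;> omega
  · rw [w2 (n - 1) (N + 30) (by omega) (by omega), ext_eq _ (5 * ((N + 28) / 2 + 1) + 3) ?_,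
      w3 n (N + 28 + 2) (by omega), w3 _ _ rfl, w3 _ (N + 28) (by omega), bin_two, add_comm]
    omega
  · have := bin_big N
    rw [w3 (n - 1) (N + 30) (by omega), ext_neg _ ?_, w4 n (N + 30) (by omega),
      w4 _ (N + 28) (by omega)]
    omega

end Pool.Agent.H.MP_4e7634_nt
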